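import Pool.Agent.W257.R4

set_option autoImplicit false

open IntermediateField

namespace Pool.Agent.Results.MP_2d259b_nt.RepulsionOfLargePoints

/-- Part 1 (effective repulsion): if an irreducible plane curve `F₁ = 0` of degree `r ≥ 3` with
squarefree leading form has one integer point `(x₁, y₁)` larger than an explicit power of its
length, then it has a real slope `t₁` at infinity, of degree `r`, such that this single point gives
an explicit polynomial bound for the integer points on every such curve `F = 0` of degree `d` all of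
whose real slopes `t` of degree `d` satisfy `3 [ℚ(t₁, t) : ℚ] ≤ r d`.
Part 2: for every real number field `K` and every `D` one computable function bounds the integer
points on all such curves of degree at most `D` all of whose real slopes of full degree generate
fields meeting `K` in degree at least three; it is polynomial in the length of `F`. -/
theorem result :
    (∀ (r d : ℕ) (F₁ : MvPolynomial (Fin 2) ℤ) (x₁ y₁ : ℤ), 3 ≤ r → 3 ≤ d →
      F₁.totalDegree = r →
      Irreducible (MvPolynomial.map (Int.castRingHom ℚ) F₁) →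
      Squarefree (MvPolynomial.map (Int.castRingHom ℚ)
        (MvPolynomial.homogeneousComponent r F₁)) →
      MvPolynomial.eval ![x₁, y₁] F₁ = 0 →
      ((r + 1) * ∑ m ∈ F₁.support, (F₁.coeff m).natAbs) ^
        (10 ^ 10 * (2 * r) ^ 10 * (2 * d) ^ (6 * r + 9)) < max x₁.natAbs y₁.natAbs →
      ∃ t₁ : ℝ, MvPolynomial.aeval ![1, t₁] (MvPolynomial.homogeneousComponent r F₁) = 0 ∧
        Module.finrank ℚ ℚ⟮t₁⟯ = r ∧
        ∀ F : MvPolynomial (Fin 2) ℤ, F.totalDegree = d →
          Irreducible (MvPolynomial.map (Int.castRingHom ℚ) F) →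
          Squarefree (MvPolynomial.map (Int.castRingHom ℚ)
            (MvPolynomial.homogeneousComponent d F)) →
          (∀ t : ℝ, MvPolynomial.aeval ![1, t] (MvPolynomial.homogeneousComponent d F) = 0 →
            Module.finrank ℚ ℚ⟮t⟯ = d → 3 * Module.finrank ℚ ↥(ℚ⟮t₁⟯ ⊔ ℚ⟮t⟯) ≤ r * d) →
          ∀ x y : ℤ, MvPolynomial.eval ![x, y] F = 0 →
            x.natAbs ≤ (max x₁.natAbs y₁.natAbs *
              ((d + 1) * ∑ m ∈ F.support, (F.coeff m).natAbs)) ^
              (10 ^ 10 * (2 * r) ^ 10 * (2 * d) ^ (6 * r + 9)) ∧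
            y.natAbs ≤ (max x₁.natAbs y₁.natAbs *
              ((d + 1) * ∑ m ∈ F.support, (F.coeff m).natAbs)) ^
              (10 ^ 10 * (2 * r) ^ 10 * (2 * d) ^ (6 * r + 9))) ∧
    (∀ (K : IntermediateField ℚ ℝ) (D : ℕ), FiniteDimensional ℚ K →
      ∃ (B : List (ℕ × ℕ × ℤ) → ℕ) (c : ℕ), Computable B ∧
        ∀ (L : List (ℕ × ℕ × ℤ)) (F : MvPolynomial (Fin 2) ℤ),
          F = (L.map (fun t => MvPolynomial.monomial
            (Finsupp.single 0 t.1 + Finsupp.single 1 t.2.1) t.2.2)).sum →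
          Irreducible (MvPolynomial.map (Int.castRingHom ℚ) F) →
          3 ≤ F.totalDegree → F.totalDegree ≤ D →
          Squarefree (MvPolynomial.map (Int.castRingHom ℚ)
            (MvPolynomial.homogeneousComponent F.totalDegree F)) →
          (∀ t : ℝ, MvPolynomial.aeval ![1, t]
              (MvPolynomial.homogeneousComponent F.totalDegree F) = 0 →
            Module.finrank ℚ ℚ⟮t⟯ = F.totalDegree →
            3 ≤ Module.finrank ℚ ↥(ℚ⟮t⟯ ⊓ K)) →
          ∀ x y : ℤ, (L.map (fun t => t.2.2 * x ^ t.1 * y ^ t.2.1)).sum = 0 →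
            (x.natAbs ≤ B L ∧ y.natAbs ≤ B L) ∧
            (x.natAbs ≤ (c * ((F.totalDegree + 1) * ∑ m ∈ F.support, (F.coeff m).natAbs)) ^
              (10 ^ 10 * (2 * D) ^ 10 * (2 * D) ^ (6 * D + 9)) ∧
            y.natAbs ≤ (c * ((F.totalDegree + 1) * ∑ m ∈ F.support, (F.coeff m).natAbs)) ^
              (10 ^ 10 * (2 * D) ^ 10 * (2 * D) ^ (6 * D + 9)))) := by
  refine ⟨?_, ?_⟩
  · intro r d F₁ x₁ y₁ hr hd hF₁ hirr hsq hxy hbig
    obtain ⟨t₁, h1, h2, h3⟩ := Pool.Agent.W257.repel2 hr hd F₁ hF₁.symm hirr hsq x₁ y₁ hxy _ rfl hbig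
    exact ⟨t₁, h1, h2, fun F hF => h3 F hF.symm⟩
  · intro K D hK
    obtain ⟨c, hc1, hc⟩ := Pool.Agent.W257.class_main K hK D
    refine ⟨Pool.Agent.W257.bLD D c, c, Pool.Agent.W257.bLD_computable D c, ?_⟩
    intro L F hF hirr hd hdD hsq hS x y hxy
    have hF' : F = Pool.Agent.H322R2.polyL L := hF
    subst hF'
    rw [← Pool.Agent.H322R2.eval_polyL] at hxy
    obtain ⟨h1, h2⟩ := hc _ hd hdD hirr hsq hS x y hxy
    refine ⟨?_, h1, h2⟩
    have hdl := Pool.Agent.H322R2.totalDegree_polyL L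
    have hsl := Pool.Agent.H322R2.len_polyL L
    have h3 : (c * (((Pool.Agent.H322R2.polyL L).totalDegree + 1) *
        Pool.Agent.H322R2.len (Pool.Agent.H322R2.polyL L))) ^ (Pool.Agent.W257.eR D D)
        ≤ Pool.Agent.W257.bLD D c L := by
      unfold Pool.Agent.W257.bLD
      apply Nat.pow_le_pow_left
      exact Nat.mul_le_mul_left _ (Nat.mul_le_mul (by omega) hsl)
    exact ⟨h1.trans h3, h2.trans h3⟩

end Pool.Agent.Results.MP_2d259b_nt.RepulsionOfLargePoints
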